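import Pool.Agent.ATP.Stmts

/-!
# Squad ATP, row CTQ: sections `R/Q` with `Zc V ≤ R`
-/

open scoped BigOperators

set_option autoImplicit false

noncomputable section

namespace Pool.Agent.PP.TP.H94

open Pool.Agent.Helper51_AWC Pool.Agent.Helper79_WRA Pool.Agent.PP Pool.Agent.PP.KF
open Pool.Agent.PP.K9 Pool.Agent.PP.K9.H97 Pool.Agent.PP.H75 Pool.Agent.PP.T3 Pool.Agent.PP.T2
open Pool.Agent.PP.TB Pool.Agent.PP.TP

section tools

theorem map_card {N H : Type} [Group N] [Finite N] [Group H] (φ : N →* H) {A B : Subgroup N}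
    (hAB : A ≤ B) : Nat.card (B.map φ) * Nat.card A ≤ Nat.card (A.map φ) * Nat.card B := by
  have h1 : Nat.card A * A.relIndex B = Nat.card B := by
    rw [← Subgroup.relIndex_bot_left, ← Subgroup.relIndex_bot_left]
    exact Subgroup.relIndex_mul_relIndex ⊥ A B bot_le hAB
  have h2 : Nat.card (A.map φ) * (A.map φ).relIndex (B.map φ) = Nat.card (B.map φ) := by
    rw [← Subgroup.relIndex_bot_left, ← Subgroup.relIndex_bot_left]
    exact Subgroup.relIndex_mul_relIndex ⊥ _ _ bot_le (Subgroup.map_mono hAB)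
  have h3 : (A.map φ).relIndex (B.map φ) ∣ A.relIndex B := by
    rw [← Subgroup.relIndex_comap]
    exact Subgroup.relIndex_dvd_of_le_left _ (Subgroup.le_comap_map φ A)
  have h4 : A.relIndex B ≠ 0 := by
    intro h
    rw [h, mul_zero] at h1
    exact Nat.card_pos.ne h1
  have h5 := Nat.le_of_dvd (Nat.pos_of_ne_zero h4) h3
  rw [← h1, ← h2]
  calc Nat.card (A.map φ) * (A.map φ).relIndex (B.map φ) * Nat.card A
      ≤ Nat.card (A.map φ) * A.relIndex B * Nat.card A :=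
        Nat.mul_le_mul_right _ (Nat.mul_le_mul_left _ h5)
    _ = Nat.card (A.map φ) * (Nat.card A * A.relIndex B) := by ring

theorem card_sub {G : Type} [Group G] [Finite G] {A N : Subgroup G} (h : A ≤ N) :
    Nat.card (A.subgroupOf N) = Nat.card A :=
  Nat.card_congr (Subgroup.subgroupOfEquivOfLe h).toEquiv

end tools

theorem ctq (pwu : T2.PwuStmt) : CtqStmt := by
  intro ℓ _ G A _ _ _ _ r p V R N φ V' hV hRV hRN hZR hV'
  have hp : ℓ.Prime := Fact.out
  have hZN : Zc V ≤ N := hZR.trans hRN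
  have hZab : ∀ a ∈ Zc V, ∀ b ∈ Zc V, a * b = b * a := by
    intro a ha b hb
    have h1 := Subgroup.mem_centralizer_iff.1 (Subgroup.mem_inf.1 hb).2 a (Subgroup.mem_inf.1 ha).1
    exact h1
  -- the images of the subgroups of the centre
  have hcen : ∀ Z : Subgroup G, Z ≤ Zc V → (Z.subgroupOf N).map φ ≤ Zc V' := by
    intro Z hZ
    rintro _ ⟨z, hz, rfl⟩
    have hz' : (z : G) ∈ Zc V := hZ hz
    refine Subgroup.mem_inf.2 ⟨?_, ?_⟩
    · rw [hV']
      exact ⟨z, hZR hz', rfl⟩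
    · rw [Subgroup.mem_centralizer_iff]
      intro y hy
      rw [hV'] at hy
      obtain ⟨v, hv, rfl⟩ := hy
      have hv' : (v : G) ∈ R := hv
      rw [← map_mul, ← map_mul]
      congr 1
      apply Subtype.ext
      exact Subgroup.mem_centralizer_iff.1 (Subgroup.mem_inf.1 hz').2 v (hRV hv')
  refine ⟨?_, ?_⟩
  · rintro ⟨Z, hZ, h1, h2⟩
    have hZN' : Z ≤ N := hZ.trans hZN
    have hab : ∀ a ∈ Z, ∀ b ∈ Z, a * b = b * a := fun a ha b hb => hZab a (hZ ha) b (hZ hb)
    have hUZ : Uw ℓ Z ≤ Z := (pwu G ℓ Z hab).2.1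
    have hUs : Uw ℓ (Z.subgroupOf N) = (Uw ℓ Z).subgroupOf N :=
      (pwu G ℓ Z hab).2.2.2.2.2.2.1 N hZN'
    have hab' : ∀ a ∈ Z.subgroupOf N, ∀ b ∈ Z.subgroupOf N, a * b = b * a := by
      intro a ha b hb
      apply Subtype.ext
      exact hab _ ha _ hb
    have hUm : Uw ℓ ((Z.subgroupOf N).map φ) = ((Uw ℓ Z).subgroupOf N).map φ := by
      rw [(pwu N ℓ (Z.subgroupOf N) hab').2.2.2.2.2.1 A φ, hUs]
    refine ⟨(Z.subgroupOf N).map φ, hcen Z hZ, ?_, ?_⟩
    · have h3 := map_card φ (A := Z.subgroupOf N) (B := R.subgroupOf N)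
        (fun x hx => hZR (hZ hx))
      rw [card_sub hZN', card_sub hRN, ← hV'] at h3
      have h4 : Nat.card R ≤ Nat.card V := Subgroup.card_le_of_le hRV
      have h5 : 0 < Nat.card Z := Nat.card_pos
      refine Nat.le_of_mul_le_mul_right ?_ h5
      calc Nat.card V' * Nat.card Z ≤ Nat.card ((Z.subgroupOf N).map φ) * Nat.card R := h3
        _ ≤ Nat.card ((Z.subgroupOf N).map φ) * (ℓ ^ p * Nat.card Z) :=
            Nat.mul_le_mul_left _ (h4.trans h1)
        _ = ℓ ^ p * Nat.card ((Z.subgroupOf N).map φ) * Nat.card Z := by ring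
    · have h3 := map_card φ (A := (Uw ℓ Z).subgroupOf N) (B := Z.subgroupOf N)
        (fun x hx => hUZ hx)
      rw [card_sub (hUZ.trans hZN'), card_sub hZN'] at h3
      have h5 : 0 < Nat.card (Uw ℓ Z) := Nat.card_pos
      rw [hUm]
      refine Nat.le_of_mul_le_mul_right ?_ h5
      calc Nat.card ((Z.subgroupOf N).map φ) * Nat.card (Uw ℓ Z)
          ≤ Nat.card (((Uw ℓ Z).subgroupOf N).map φ) * Nat.card Z := h3
        _ ≤ Nat.card (((Uw ℓ Z).subgroupOf N).map φ) * (ℓ ^ r * Nat.card (Uw ℓ Z)) :=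
            Nat.mul_le_mul_left _ h2
        _ = ℓ ^ r * Nat.card (((Uw ℓ Z).subgroupOf N).map φ) * Nat.card (Uw ℓ Z) := by ring
  · intro a ha hexp
    have hab' : ∀ a ∈ (Zc V).subgroupOf N, ∀ b ∈ (Zc V).subgroupOf N, a * b = b * a := by
      intro a ha b hb
      apply Subtype.ext
      exact hZab _ ha _ hb
    have hexp' : Monoid.exponent ((Zc V).subgroupOf N) = ℓ ^ a := by
      rw [← hexp]
      exact Monoid.exponent_eq_of_mulEquiv (Subgroup.subgroupOfEquivOfLe hZN)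
    have h1 := ((pwu N (ℓ ^ (a - 1)) ((Zc V).subgroupOf N) hab').2.2.2.2.2.2.2 ℓ a ha hexp'
      rfl).2 A φ
    rcases h1 with h1 | h1
    · left
      obtain ⟨W, hW⟩ : ∃ W : Subgroup A, W = ((Zc V).subgroupOf N).map φ := ⟨_, rfl⟩
      rw [← hW] at h1
      have hWle : W ≤ Zc V' := by
        rw [hW]
        exact hcen _ le_rfl
      have h2 : ∃ w : W, w ^ ℓ ^ (a - 1) ≠ 1 := by
        by_contra hcon
        push Not at hcon
        have h3 := Monoid.exponent_dvd_iff_forall_pow_eq_one.2 hcon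
        rw [h1] at h3
        have h4 := (Nat.pow_dvd_pow_iff_le_right hp.one_lt).1 h3
        omega
      obtain ⟨w, hw⟩ := h2
      refine ⟨w, hWle w.2, ?_⟩
      rw [Subgroup.orderOf_coe]
      have h3 : w ^ ℓ ^ (a - 1 + 1) = 1 := by
        rw [Nat.sub_add_cancel ha, ← h1]
        exact Monoid.pow_exponent_eq_one w
      rw [orderOf_eq_prime_pow hw h3, Nat.sub_add_cancel ha]
    · right
      have h2 : Uw (ℓ ^ (a - 1)) ((Zc V).subgroupOf N) = (Uz ℓ a V).subgroupOf N :=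
        (pwu G (ℓ ^ (a - 1)) (Zc V) hZab).2.2.2.2.2.2.1 N hZN
      have h3 : Uz ℓ a V ≤ Zc V := (pwu G (ℓ ^ (a - 1)) (Zc V) hZab).2.1
      intro x hx
      have hxN : x ∈ N := hZN (h3 hx)
      refine ⟨⟨x, hxN⟩, h1 ?_, rfl⟩
      rw [h2]
      exact hx

end Pool.Agent.PP.TP.H94
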