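import Pool.Agent.ATP.Stmts
import Pool.Agent.Helper56_AT5.FS5

/-!
# Squad ATP, row FSP: the block `f` of `N(U)`
-/

open scoped BigOperators

set_option autoImplicit false

noncomputable section

namespace Pool.Agent.PP.TP.H94

open Pool.Agent.Helper51_AWC Pool.Agent.Helper79_WRA Pool.Agent.PP Pool.Agent.PP.KF
open Pool.Agent.PP.K9 Pool.Agent.PP.K9.H97 Pool.Agent.PP.H75 Pool.Agent.PP.T3 Pool.Agent.PP.T2
open Pool.Agent.PP.TB Pool.Agent.PP.TP Pool.Agent.PP.T5.H56

attribute [local instance] Ideal.Quotient.field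

theorem fsp (zcf : ZcfStmt) (fmg : FmgStmt) : FspStmt := by
  intro ℓ _ M _ hM G _ _ a p e V hL
  have hF : GoodF ℓ (FF M) := H50.fld ℓ Fact.out M hM
  obtain ⟨hz1, hz2, hz3, -⟩ := (zcf G V).2.1 ℓ a
  obtain ⟨U, hU⟩ : ∃ U : Subgroup G, U = Uz ℓ a V := ⟨_, rfl⟩
  have hUV : U ≤ V := by
    rw [hU]
    exact hz1.trans (zcf G V).1.1
  have hUp : IsPGroup ℓ U := hL.tp.pg.to_le hUV
  -- the normaliser of `U`
  obtain ⟨X, hX⟩ : ∃ X : Subgroup G, X = Subgroup.normalizer (U : Set G) := ⟨_, rfl⟩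
  have hNV : Subgroup.normalizer (V : Set G) ≤ X := by
    rw [hX, hU]
    exact hz3
  have hCUX : Subgroup.centralizer (U : Set G) ≤ X := by
    rw [hX]
    exact T3.H85.cent_le_norm U
  have hVX : V ≤ X := Subgroup.le_normalizer.trans hNV
  have hCX : Subgroup.centralizer (V : Set G) ≤ X := (T3.H85.cent_le_norm V).trans hNV
  have hUX : U ≤ X := hUV.trans hVX
  -- the idempotent `br_U(e)` of `X`
  have hEid : IsIdem (fun t : X => br U e t) :=
    (H20.brm ℓ (FF M) hF G U X hUp hCUX (le_of_eq hX)).2.2 e hL.blk.1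
  have hEX : Ix X (br U e) :=
    ⟨fun x hx => H66.br_of_not_mem (fun h => hx (hCUX h)), hEid⟩
  have hbrE : ∀ W : Subgroup G, U ≤ W → br W (br U e) = br W e := by
    intro W hUW
    funext g
    by_cases hg : g ∈ Subgroup.centralizer (W : Set G)
    · rw [H66.br_of_mem hg, H66.br_of_mem hg, H66.br_of_mem (Subgroup.centralizer_le hUW hg)]
    · rw [H66.br_of_not_mem hg, H66.br_of_not_mem hg]
  obtain ⟨-, ⟨hbe, -⟩, -⟩ := fmg ℓ M hM G e hL.blk V hL.tp
  have hBe : Bx (Subgroup.normalizer (V : Set G)) (br V e) :=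
    ⟨fun x hx => H66.br_of_not_mem (fun h => hx (T3.H85.cent_le_norm V h)), hbe⟩
  have hbe0 : br V e ≠ 0 := by
    intro h0
    apply hbe.2.1
    rw [h0]
    rfl
  -- blocks of `X` under `br_U(e)` for which `V` is good
  have key1 : ∀ f' : G → FF M, Bx X f' → mulF (br U e) f' = f' → br V f' ≠ 0 →
      br V f' = br V e := by
    intro f' hf' hund h0
    have h1 := ix_brN hF hL.tp.pg hVX hNV hf'.ix
    have h2 : mulF (br V e) (br V f') = br V f' := by
      have h3 := congrArg (br V) hund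
      rw [T2.H32.br_mul hF hL.tp.pg hVX hEX hf'.ix, hbrE V hUV] at h3
      exact h3
    rcases hBe.dich' h1 with h | h
    · rw [← h2, h]
    · exact absurd (by rw [← h2, h]) h0
  -- the block `f`
  have hext_add : ∀ a b : X → FF M, PP.ext0 X (a + b) = PP.ext0 X a + PP.ext0 X b := by
    intro a b
    funext x
    by_cases hx : x ∈ X
    · rw [H46.ext0_of_mem _ hx, Pi.add_apply, Pi.add_apply, H46.ext0_of_mem _ hx,
        H46.ext0_of_mem _ hx]
    · rw [H46.ext0_of_not_mem _ hx, Pi.add_apply, H46.ext0_of_not_mem _ hx,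
        H46.ext0_of_not_mem _ hx, add_zero]
  have hext_zero : PP.ext0 X (0 : X → FF M) = 0 := by
    funext x
    by_cases hx : x ∈ X
    · rw [H46.ext0_of_mem _ hx]
      rfl
    · rw [H46.ext0_of_not_mem _ hx]
      rfl
  have hextE : PP.ext0 X (fun t : X => br U e t) = br U e := by
    funext x
    by_cases hx : x ∈ X
    · rw [H46.ext0_of_mem _ hx]
    · rw [H46.ext0_of_not_mem _ hx, hEX.supp x hx]
  obtain ⟨b₀, hb₀, heb₀, hL₀⟩ := K9.H24.exists_blk
    (fun a : X → FF M => br V (PP.ext0 X a))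
    (by
      show br V (PP.ext0 X 0) = 0
      rw [hext_zero, T2.H32.br_zero])
    (by
      intro a b
      show br V (PP.ext0 X (a + b)) = br V (PP.ext0 X a) + br V (PP.ext0 X b)
      rw [hext_add, T2.H32.br_add])
    hEid
    (by
      show br V (PP.ext0 X (fun t : X => br U e t)) ≠ 0
      rw [hextE, hbrE V hUV]
      exact hbe0)
  have hrestr : (fun t : X => PP.ext0 X b₀ t) = b₀ := H46.restr_ext0 _
  obtain ⟨f, hf⟩ : ∃ f : G → FF M, f = PP.ext0 X b₀ := ⟨_, rfl⟩
  rw [← hf] at hrestr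
  have hfX : Bx X f := by
    refine ⟨fun x hx => ?_, ?_⟩
    · rw [hf]
      exact H46.ext0_of_not_mem _ hx
    · rw [hrestr]
      exact hb₀
  have hund : mulF (br U e) f = f := by
    apply H75.eq_of_res (H75.mulF_supp X hEX.supp hfX.supp) hfX.supp
    rw [H75.mulF_res X f hEX.supp, hrestr]
    exact heb₀
  have hbf : br V f = br V e := key1 f hfX hund (by rw [hf]; exact hL₀)
  have hsupp : ∀ x, x ∉ Subgroup.centralizer (U : Set G) → f x = 0 := by
    intro x hx
    rw [← T2.H32.supp_cent hF hUp hUX hCUX (le_of_eq hX) hfX.ix]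
    exact H66.br_of_not_mem hx
  -- good subgroups
  have hVcard : Nat.card (V.subgroupOf X) = Nat.card V :=
    Nat.card_congr (Subgroup.subgroupOfEquivOfLe hVX).toEquiv
  have hVp : IsPGroup ℓ (V.subgroupOf X) :=
    hL.tp.pg.of_equiv (Subgroup.subgroupOfEquivOfLe hVX).symm
  have hgood : ∀ Q : Subgroup X,
      IsPGroup ℓ Q → Gd (fun t : X => f t) Q → Gd e (Q.map X.subtype) := by
    intro Q hQ hQf
    have hmul : mulF (fun t : X => br U e t) (fun t : X => f t) = fun t : X => f t := by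
      rw [← H75.mulF_res X f hEX.supp, hund]
    obtain ⟨g, hg1, hg2⟩ := gd_map (gd_of_mul hF hEid.1 hfX.blk.1.1 hmul hQ hQf)
    refine ⟨g, hg1, ?_⟩
    intro h0
    apply hg2
    by_cases hg : g ∈ Subgroup.centralizer (U : Set G)
    · rw [H66.br_of_mem hg, h0]
    · rw [H66.br_of_not_mem hg]
  have hTf : Tp ℓ (fun t : X => f t) (V.subgroupOf X) := by
    refine ⟨hVp, ?_, ?_⟩
    · obtain ⟨g, hg⟩ : ∃ g, br V f g ≠ 0 := by
        by_contra hcon
        push Not at hcon
        apply hbe0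
        rw [← hbf]
        exact funext hcon
      have hgV : g ∈ Subgroup.centralizer (V : Set G) := by
        by_contra hcon
        exact hg (H66.br_of_not_mem hcon)
      rw [H66.br_of_mem hgV] at hg
      exact ⟨⟨g, hCX hgV⟩, (cent_sub hVX _).2 hgV, hg⟩
    · intro Q hQ hQf
      have hcard : Nat.card (Q.map X.subtype) = Nat.card Q :=
        (Nat.card_congr (Q.equivMapOfInjective X.subtype X.subtype_injective).toEquiv).symm
      have h2 := hL.tp.mx _ (hQ.map X.subtype) (hgood Q hQ hQf)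
      rw [hcard] at h2
      rw [hVcard]
      exact h2
  refine ⟨f, ?_⟩
  subst hX
  subst hU
  exact ⟨hfX, hsupp, hund, hbf, hNV, hTf⟩

end Pool.Agent.PP.TP.H94
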